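import Mathlib

/-!
# The bound for the zonal wavenumbers in the Rossby resonance set fails

`(153720320, 52)` belongs to the wavevector set `Λ`: the three wavevectors `(153720320, 52)`,
`(98422695, 129549398)` and `(-55297625, 129549346)` are resonant.  It is different from `(800, 4)`, and
`153720320 > 21 * 52 ^ 4`, while `√3 < 2`.  So the answer to Q1 is negative.

How it was found: if `z = a + i b` and `x + i y = s z` with `s` in `ℚ(i)`, the equation says that `z` is
a real multiple of `i (s² - s + 1) / (s (1 - s))`; so the resonant triads are parametrised by `s`, and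
all the `s` of small height were tried.
-/

namespace Pool.Agent.Results.MP_ab166a_nt.WavenumberFiftyTwo

/-- The equation `(∗)`. -/
def Star (a b x y : ℤ) : Prop :=
  x * (a ^ 2 + b ^ 2) * (a ^ 2 + b ^ 2 - 2 * a * x - 2 * b * y) =
    a * (x ^ 2 + y ^ 2) * (x ^ 2 + y ^ 2 - 2 * a * x - 2 * b * y)

/-- The wavevector set `Λ`. -/
def Lam : Set (ℤ × ℤ) := {p | ∃ x y : ℤ, Star p.1 p.2 x y ∧ p.1 * x * (p.1 - x) ≠ 0}

/-- The wavevector `(153720320, 52)` belongs to `Λ` and `153720320 > 21 * 52 ^ 4`; so it is not true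
that every `(a, b) ∈ Λ` with `a > 0` and `b > 0` is equal to `(800, 4)` or satisfies `a < √3 b⁴`. -/
theorem result :
    (((153720320, 52) : ℤ × ℤ) ∈ Lam ∧ (153720320 : ℤ) > 21 * 52 ^ 4) ∧
    ¬ ∀ a b : ℤ, (a, b) ∈ Lam → 0 < a → 0 < b →
      (a, b) = (800, 4) ∨ (a : ℝ) < Real.sqrt 3 * (b : ℝ) ^ 4 := by
  have h1 : ((153720320, 52) : ℤ × ℤ) ∈ Lam := by
    refine ⟨98422695, 129549398, ?_, ?_⟩
    · show (98422695 : ℤ) * (153720320 ^ 2 + 52 ^ 2) *
          (153720320 ^ 2 + 52 ^ 2 - 2 * 153720320 * 98422695 - 2 * 52 * 129549398) =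
        153720320 * (98422695 ^ 2 + 129549398 ^ 2) *
          (98422695 ^ 2 + 129549398 ^ 2 - 2 * 153720320 * 98422695 - 2 * 52 * 129549398)
      norm_num
    · show (153720320 : ℤ) * 98422695 * (153720320 - 98422695) ≠ 0
      norm_num
  refine ⟨⟨h1, by norm_num⟩, fun h => ?_⟩
  rcases h 153720320 52 h1 (by norm_num) (by norm_num) with h2 | h2
  · have h3 := congrArg Prod.snd h2
    norm_num at h3
  · have h3 : Real.sqrt 3 < 2 := by
      rw [Real.sqrt_lt' (by norm_num)]
      norm_num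
    have h4 : Real.sqrt 3 * ((52 : ℤ) : ℝ) ^ 4 < 2 * ((52 : ℤ) : ℝ) ^ 4 :=
      mul_lt_mul_of_pos_right h3 (by positivity)
    have h5 : (2 : ℝ) * ((52 : ℤ) : ℝ) ^ 4 < ((153720320 : ℤ) : ℝ) := by norm_num
    linarith

end Pool.Agent.Results.MP_ab166a_nt.WavenumberFiftyTwo
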